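import Pool.Agent.H9.FC.TC

/-! Module TBV: evaluation of `tB` by an ultrafilter. -/

namespace Pool.Agent.H17.FC.TBV

open Pool.Agent.H9.FC Set

variable {B : Type} [CompleteBooleanAlgebra B]

theorem compl_iff (M : Gen B) (a : B) : aᶜ ∈ M.G ↔ a ∉ M.G := by
  constructor
  · intro h1 h2
    have := M.inf_mem h2 h1
    rw [inf_compl_self] at this
    exact M.bot_not_mem this
  · intro h
    rcases M.ultra a with h1 | h1
    · exact absurd h1 h
    · exact h1

theorem sup_mem (M : Gen B) {a c : B} (h : a ⊔ c ∈ M.G) : a ∈ M.G ∨ c ∈ M.G := by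
  rcases M.ultra a with h1 | h1
  · exact Or.inl h1
  · right
    refine M.up (M.inf_mem h1 h) ?_
    rw [inf_sup_left, compl_inf_self, bot_sup_eq]
    exact inf_le_right

theorem finset_sup_mem (M : Gen B) {ι : Type} (s : Finset ι) (f : ι → B) (h : s.sup f ∈ M.G) :
    ∃ i ∈ s, f i ∈ M.G := by
  classical
  induction s using Finset.induction_on with
  | empty =>
    rw [Finset.sup_empty] at h
    exact absurd h M.bot_not_mem
  | insert a s _ ih =>
    rw [Finset.sup_insert] at h
    rcases sup_mem M h with h1 | h1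
    · exact ⟨a, Finset.mem_insert_self _ _, h1⟩
    · obtain ⟨i, hi, h2⟩ := ih h1
      exact ⟨i, Finset.mem_insert_of_mem hi, h2⟩

theorem finset_inf_mem (M : Gen B) {ι : Type} (s : Finset ι) (f : ι → B)
    (h : ∀ i ∈ s, f i ∈ M.G) : s.inf f ∈ M.G := by
  classical
  induction s using Finset.induction_on with
  | empty =>
    rw [Finset.inf_empty]
    exact M.top_mem
  | insert a s _ ih =>
    rw [Finset.inf_insert]
    exact M.inf_mem (h a (Finset.mem_insert_self _ _))
      (ih fun i hi => h i (Finset.mem_insert_of_mem hi))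

theorem iInf_mem (M : Gen B) {ι : Type} [Finite ι] (f : ι → B) :
    (⨅ i, f i) ∈ M.G ↔ ∀ i, f i ∈ M.G := by
  constructor
  · intro h i
    exact M.up h (iInf_le _ i)
  · intro h
    obtain ⟨hf⟩ := nonempty_fintype ι
    rw [← Finset.inf_univ_eq_iInf]
    exact finset_inf_mem M _ _ fun i _ => h i

theorem lt_bl (p : Par) (i : ℕ) : i < bl p (i + 1) := by
  unfold bl
  have : ∑ i' ∈ Finset.range (i + 1), 1 ≤ ∑ i' ∈ Finset.range (i + 1), p.ell i' :=
    Finset.sum_le_sum fun j _ => p.ell_pos j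
  simp at this
  omega

theorem pf_TBV : T_TBV := by
  classical
  intro p B _ M τ hpart hleg
  have hex : ∀ i, ∃ A : Finset ℕ, (A ⊆ Finset.range (p.a i) ∧ 2 * A.card ≤ p.a i) ∧
      τ i A ∈ M.G := by
    intro i
    have h1 : ((Finset.range (p.a i)).powerset.filter fun A => 2 * A.card ≤ p.a i).sup (τ i) =
        ⊤ := by
      rw [eq_top_iff, ← (hpart i).1]
      refine iSup_le fun A => ?_
      by_cases hA : τ i A = ⊥
      · rw [hA]; exact bot_le
      · have h2 := hleg i A hA
        exact Finset.le_sup (f := τ i)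
          (Finset.mem_filter.2 ⟨Finset.mem_powerset.2 h2.1, h2.2⟩)
    have h3 : ((Finset.range (p.a i)).powerset.filter fun A => 2 * A.card ≤ p.a i).sup (τ i) ∈
        M.G := by rw [h1]; exact M.top_mem
    obtain ⟨A, hA, hG⟩ := finset_sup_mem M _ _ h3
    rw [Finset.mem_filter, Finset.mem_powerset] at hA
    exact ⟨A, hA, hG⟩
  choose A hA hG using hex
  have hcode : ∀ i c, (⨆ A' : {A' : Finset ℕ // c ∈ A'}, τ i A'.1) ∈ M.G ↔ c ∈ A i := by
    intro i c
    constructor
    · intro h
      by_contra hc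
      have h1 := M.inf_mem h (hG i)
      rw [iSup_inf_eq] at h1
      have h2 : (⨆ A' : {A' : Finset ℕ // c ∈ A'}, τ i A'.1 ⊓ τ i (A i)) = ⊥ := by
        rw [iSup_eq_bot]
        rintro ⟨A', hA'⟩
        refine (hpart i).2 _ _ ?_
        rintro rfl
        exact hc hA'
      rw [h2] at h1
      exact M.bot_not_mem h1
    · intro hc
      exact M.up (hG i) (le_iSup (fun A' : {A' : Finset ℕ // c ∈ A'} => τ i A'.1) ⟨A i, hc⟩)
  have hval : ∀ k, tval p τ k ∈ M.G ↔ ∃ σ : List ℕ,
      Encodable.decode (Nat.unpair k).2 = some σ ∧ okS p A (Nat.unpair k).1 σ := by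
    intro k
    have hσ : ∀ σ : List ℕ, (⨅ i : {i : ℕ // (Nat.unpair k).1 ≤ i ∧ bl p (i + 1) ≤ σ.length},
        ⨆ A : {A : Finset ℕ // cod ((σ.drop (bl p i.1)).take (p.ell i.1)) ∈ A}, τ i.1 A.1) ∈
        M.G ↔ okS p A (Nat.unpair k).1 σ := by
      intro σ
      have hfin : Finite {i : ℕ // (Nat.unpair k).1 ≤ i ∧ bl p (i + 1) ≤ σ.length} := by
        refine Set.Finite.subset (Set.finite_lt_nat σ.length) ?_
        rintro i ⟨-, hi⟩
        exact (lt_bl p i).trans_le hi
      rw [iInf_mem]
      constructor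
      · intro h i h1 h2
        exact (hcode i _).1 (h ⟨i, h1, h2⟩)
      · rintro h ⟨i, h1, h2⟩
        exact (hcode i _).2 (h i h1 h2)
    unfold tval
    cases hd : (Encodable.decode (Nat.unpair k).2 : Option (List ℕ)) with
    | none =>
      constructor
      · intro h
        exfalso
        rw [iSup_eq_bot.2] at h
        · exact M.bot_not_mem h
        · rintro ⟨σ, hσ'⟩
          exact absurd hσ' (by simp)
      · rintro ⟨σ, hσ', -⟩
        exact absurd hσ' (by simp)
    | some σ0 =>
      constructor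
      · intro h
        refine ⟨σ0, rfl, (hσ σ0).1 (M.up h ?_)⟩
        refine iSup_le ?_
        rintro ⟨σ, hσ'⟩
        have : σ0 = σ := by simpa using hσ'
        subst this
        exact le_rfl
      · rintro ⟨σ, hσ', hok⟩
        exact M.up ((hσ σ).2 hok) (le_iSup (fun σ : {σ : List ℕ // some σ0 = some σ} =>
          ⨅ i : {i : ℕ // (Nat.unpair k).1 ≤ i ∧ bl p (i + 1) ≤ σ.1.length},
          ⨆ A : {A : Finset ℕ // cod ((σ.1.drop (bl p i.1)).take (p.ell i.1)) ∈ A}, τ i.1 A.1)
          ⟨σ, hσ'⟩)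
  refine ⟨A, hA, hG, fun k v => ?_⟩
  unfold tB tA
  by_cases hc : ∃ σ : List ℕ, Encodable.decode (Nat.unpair k).2 = some σ ∧
      okS p A (Nat.unpair k).1 σ
  · rw [if_pos hc]
    by_cases h1 : v = 1
    · rw [if_pos h1]
      exact ⟨fun _ => h1, fun _ => (hval k).2 hc⟩
    · rw [if_neg h1]
      refine ⟨fun h => ?_, fun h => absurd h h1⟩
      exfalso
      by_cases h0 : v = 0
      · rw [if_pos h0, compl_iff] at h
        exact h ((hval k).2 hc)
      · rw [if_neg h0] at h
        exact M.bot_not_mem h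
  · rw [if_neg hc]
    by_cases h1 : v = 1
    · rw [if_pos h1]
      refine ⟨fun h => absurd ((hval k).1 h) hc, fun h => ?_⟩
      rw [h1] at h
      exact absurd h one_ne_zero
    · rw [if_neg h1]
      by_cases h0 : v = 0
      · rw [if_pos h0, compl_iff]
        exact ⟨fun _ => h0, fun _ h => hc ((hval k).1 h)⟩
      · rw [if_neg h0]
        exact ⟨fun h => absurd h M.bot_not_mem, fun h => absurd h h0⟩

end Pool.Agent.H17.FC.TBV
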